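import Mathlib
import Pool.Agent.H397R2.NS4

/-!
# Sets close to a real square progression `δ + α m ^ 2`

A uniform version of the argument of `Pool/Agent/H397R2/NS6.lean`: for all large `N`, if at least
`√N exp (-φ / 40)` elements `a ≤ N` of `A` are within `exp (φ / 100)` of numbers `δ + α m ^ 2` with
`m ≤ √N exp (φ / 40)`, where `φ = √(log N / log log N)` and `α, δ` are arbitrary real numbers, then
`r_A(s) ≥ exp (φ / 100)` for some `s ≤ 2 N`.
-/

open Finset Filter Topology Real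

namespace Pool.Agent.N715.QC

open Pool.Agent.H397R2.NS
open Pool.Agent.H313R2 (S1 mem_S1 S1_card_ge)

/-- `√(log x / log log x)`. -/
noncomputable def ph (x : ℝ) : ℝ := sqrt (log x / log (log x))

open Classical in
/-- Pigeonhole for sums in a finite set. -/
lemma pigeon (A : Set ℕ) (N : ℕ) (E : Finset (ℕ × ℕ)) (hE : ∀ z ∈ E, z.1 ∈ A ∧ z.2 ∈ A ∧
    z.1 ≤ N ∧ z.2 ≤ N) (T : Finset ℕ) (hT : ∀ z ∈ E, z.1 + z.2 ∈ T) (b t : ℝ) (hb : 0 < b)
    (ht : 0 < t) (hbE : b ≤ E.card) (hTt : (T.card : ℝ) ≤ t) :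
    ∃ s : ℕ, s ≤ 2 * N ∧ b / t ≤ rep A s := by
  have hEne : E.Nonempty := by
    rw [← Finset.card_pos]
    have : (0 : ℝ) < E.card := lt_of_lt_of_le hb hbE
    exact_mod_cast this
  obtain ⟨z0, hz0⟩ := hEne
  obtain ⟨s, hs, hs'⟩ := Finset.exists_le_card_fiber_of_nsmul_le_card_of_maps_to
    (b := b / t) hT ⟨_, hT z0 hz0⟩ (by
      rw [nsmul_eq_mul]
      refine le_trans ?_ hbE
      calc (T.card : ℝ) * (b / t) ≤ t * (b / t) :=
            mul_le_mul_of_nonneg_right hTt (by positivity)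
        _ = b := by field_simp)
  refine ⟨s, ?_, ?_⟩
  · have hpos : (0 : ℝ) < ((E.filter (fun z => z.1 + z.2 = s)).card : ℝ) :=
      lt_of_lt_of_le (by positivity) hs'
    have hpos' : 0 < (E.filter (fun z => z.1 + z.2 = s)).card := by exact_mod_cast hpos
    obtain ⟨z, hz⟩ := Finset.card_pos.mp hpos'
    rw [Finset.mem_filter] at hz
    have := hE z hz.1
    omega
  · refine hs'.trans ?_
    rw [Nat.cast_le]
    unfold rep
    rw [← Set.ncard_coe_finset]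
    refine Set.ncard_le_ncard ?_ (rep_finite A s)
    intro z hz
    rw [Finset.mem_coe, Finset.mem_filter] at hz
    have := hE z hz.1
    exact ⟨this.1, this.2.1, hz.2⟩

lemma card_window (c G : ℝ) (hG : 0 ≤ G) :
    ((Finset.Icc ⌈c - 2 * G⌉₊ ⌊c + 2 * G⌋₊).card : ℝ) ≤ 4 * G + 1 := by
  by_cases hne : ⌈c - 2 * G⌉₊ ≤ ⌊c + 2 * G⌋₊
  · rw [Nat.card_Icc, Nat.cast_sub (by omega)]
    have h2 := Nat.le_ceil (c - 2 * G)
    by_cases h0 : 0 ≤ c + 2 * G
    · have h3 : ((⌊c + 2 * G⌋₊ : ℕ) : ℝ) ≤ c + 2 * G := Nat.floor_le h0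
      push_cast
      linarith
    · have h3 : ⌊c + 2 * G⌋₊ = 0 := Nat.floor_of_nonpos (by linarith)
      rw [h3]
      have : (0 : ℝ) ≤ (⌈c - 2 * G⌉₊ : ℝ) := Nat.cast_nonneg _
      push_cast
      linarith
  · rw [Finset.Icc_eq_empty (by omega)]
    simp
    linarith

open Classical in
lemma transfer' (A : Set ℕ) (α δ G : ℝ) (hG : 0 ≤ G) (S : Finset ℕ) (a : ℕ → ℕ)
    (hinj : Set.InjOn a S) (haA : ∀ n ∈ S, a n ∈ A) (N : ℕ) (haN : ∀ n ∈ S, a n ≤ N)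
    (ha : ∀ n ∈ S, |(a n : ℝ) - (α * n ^ 2 + δ)| ≤ G) (k : ℕ) (b : ℝ) (hb : 0 < b)
    (hk : b ≤ ((S ×ˢ S).filter (fun z => z.1 ^ 2 + z.2 ^ 2 = k)).card) :
    ∃ s : ℕ, s ≤ 2 * N ∧ b / (4 * G + 1) ≤ rep A s := by
  set E := (S ×ˢ S).filter (fun z => z.1 ^ 2 + z.2 ^ 2 = k) with hE
  have hEi : Set.InjOn (fun z : ℕ × ℕ => (a z.1, a z.2)) E := by
    intro z hz z' hz' h
    rw [Finset.mem_coe, hE, Finset.mem_filter, Finset.mem_product] at hz hz'
    simp only [Prod.mk.injEq] at h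
    exact Prod.ext (hinj hz.1.1 hz'.1.1 h.1) (hinj hz.1.2 hz'.1.2 h.2)
  refine pigeon A N (E.image (fun z : ℕ × ℕ => (a z.1, a z.2))) ?_
    (Finset.Icc ⌈(α * k + 2 * δ) - 2 * G⌉₊ ⌊(α * k + 2 * δ) + 2 * G⌋₊) ?_ b (4 * G + 1) hb
    (by linarith) ?_ (card_window _ _ hG)
  · intro z hz
    rw [Finset.mem_image] at hz
    obtain ⟨w, hw, rfl⟩ := hz
    rw [hE, Finset.mem_filter, Finset.mem_product] at hw
    exact ⟨haA _ hw.1.1, haA _ hw.1.2, haN _ hw.1.1, haN _ hw.1.2⟩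
  · intro z hz
    rw [Finset.mem_image] at hz
    obtain ⟨w, hw, rfl⟩ := hz
    rw [hE, Finset.mem_filter, Finset.mem_product] at hw
    obtain ⟨⟨h1, h2⟩, h3⟩ := hw
    have h4 := abs_le.mp (ha _ h1)
    have h5 := abs_le.mp (ha _ h2)
    have h6 : (w.1 : ℝ) ^ 2 + (w.2 : ℝ) ^ 2 = k := by exact_mod_cast h3
    rw [Finset.mem_Icc]
    constructor
    · refine Nat.ceil_le.mpr ?_
      rw [← h6]
      push_cast
      linarith [h4.1, h5.1]
    · refine Nat.le_floor ?_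
      rw [← h6]
      push_cast
      linarith [h4.2, h5.2]
  · rw [Finset.card_image_of_injOn hEi]
    exact hk

open Classical in
/-- A set of integers close to a square progression gives a set of `n`. -/
lemma extract' (A : Set ℕ) (α δ G Y : ℝ) (hG : 1 ≤ G) (N : ℕ) (B : Finset ℕ)
    (hB : ∀ a ∈ B, a ∈ A ∧ a ≤ N ∧ ∃ n : ℕ, (n : ℝ) ≤ Y ∧ |(a : ℝ) - (α * n ^ 2 + δ)| ≤ G) :
    ∃ (S : Finset ℕ) (a : ℕ → ℕ), (∀ n ∈ S, n < ⌊Y⌋₊ + 1) ∧ Set.InjOn a S ∧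
      (∀ n ∈ S, a n ∈ A) ∧ (∀ n ∈ S, a n ≤ N) ∧ (∀ n ∈ S, |(a n : ℝ) - (α * n ^ 2 + δ)| ≤ G) ∧
      (B.card : ℝ) ≤ 3 * G * S.card := by
  have hex : ∀ a : ℕ, ∃ n : ℕ, a ∈ B → (n : ℝ) ≤ Y ∧ |(a : ℝ) - (α * n ^ 2 + δ)| ≤ G := by
    intro a
    by_cases h : a ∈ B
    · obtain ⟨n, hn⟩ := (hB a h).2.2
      exact ⟨n, fun _ => hn⟩
    · exact ⟨0, fun h' => absurd h' h⟩
  choose f hf using hex
  have hsec : ∀ n : ℕ, ∃ a : ℕ, n ∈ B.image f → a ∈ B ∧ f a = n := by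
    intro n
    by_cases h : n ∈ B.image f
    · rw [Finset.mem_image] at h
      obtain ⟨a, ha, han⟩ := h
      exact ⟨a, fun _ => ⟨ha, han⟩⟩
    · exact ⟨0, fun h' => absurd h' h⟩
  choose g hg using hsec
  refine ⟨B.image f, g, ?_, ?_, ?_, ?_, ?_, ?_⟩
  · intro n hn
    rw [Finset.mem_image] at hn
    obtain ⟨a, ha, rfl⟩ := hn
    exact Nat.lt_succ_of_le (Nat.le_floor (hf a ha).1)
  · intro n hn n' hn' h
    rw [← (hg n hn).2, ← (hg n' hn').2, h]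
  · intro n hn
    exact (hB _ (hg n hn).1).1
  · intro n hn
    exact (hB _ (hg n hn).1).2.1
  · intro n hn
    have h1 := (hf _ (hg n hn).1).2
    rwa [(hg n hn).2] at h1
  · have h1 : ∀ n ∈ B.image f, (B.filter (fun a => f a = n)).card ≤ ⌊3 * G⌋₊ := by
      intro n _
      have h2 : B.filter (fun a => f a = n) ⊆
          Finset.Icc ⌈(α * n ^ 2 + δ) - 2 * (G / 2)⌉₊ ⌊(α * n ^ 2 + δ) + 2 * (G / 2)⌋₊ := by
        intro a ha
        rw [Finset.mem_filter] at ha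
        have h3 := abs_le.mp (hf a ha.1).2
        rw [ha.2] at h3
        rw [Finset.mem_Icc]
        exact ⟨Nat.ceil_le.mpr (by linarith [h3.1]), Nat.le_floor (by linarith [h3.2])⟩
      refine (Finset.card_le_card h2).trans (Nat.le_floor ?_)
      refine (card_window _ _ (by linarith)).trans ?_
      linarith
    have h2 := Finset.card_le_mul_card_image B ⌊3 * G⌋₊ h1
    have h3 : (B.card : ℝ) ≤ (⌊3 * G⌋₊ : ℕ) * ((B.image f).card : ℝ) := by exact_mod_cast h2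
    refine h3.trans (mul_le_mul_of_nonneg_right (Nat.floor_le (by linarith)) (Nat.cast_nonneg _))

/-- The quantitative main inequality. -/
lemma master' (A : Set ℕ) (α δ G : ℝ) (hG : 1 ≤ G) {m w y X : ℕ} (hm : 0 < m)
    (hw : 0 < w) (hy : 1 ≤ y) (hmw : m * w ≤ (S1 y).card) (hX : y ^ (m * w) ≤ X)
    (S : Finset ℕ) (hSX : ∀ n ∈ S, n < X) (hS : 4 * (3 / 5 : ℝ) ^ m * X ≤ S.card) (a : ℕ → ℕ)
    (hinj : Set.InjOn a S) (haA : ∀ n ∈ S, a n ∈ A) (N : ℕ) (haN : ∀ n ∈ S, a n ≤ N)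
    (ha : ∀ n ∈ S, |(a n : ℝ) - (α * n ^ 2 + δ)| ≤ G) :
    ∃ s : ℕ, s ≤ 2 * N ∧
      ((S.card : ℝ) / (m * X)) ^ 2 * (5 / 3 : ℝ) ^ w / (60 * G) ≤ rep A s := by
  obtain ⟨d, hd1, hd2, hd3, hd4⟩ := blocks hw hy hmw
  obtain ⟨k, hk, hk'⟩ := core hm w d hd1 hd2 hd3 X (hd4.trans hX) S hSX hS
  have hX0 : 0 < X := lt_of_lt_of_le (pow_pos (by omega) _) hX
  have hXr : (0 : ℝ) < X := by exact_mod_cast hX0
  have hS0 : (0 : ℝ) < S.card := lt_of_lt_of_le (by positivity) hS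
  have hmr : (0 : ℝ) < m := by exact_mod_cast hm
  obtain ⟨s, hs, hs'⟩ := transfer' A α δ G (by linarith) S a hinj haA N haN ha k _ (by positivity)
    hk'
  refine ⟨s, hs, le_trans ?_ hs'⟩
  rw [div_div]
  refine div_le_div_of_nonneg_left (by positivity) (by positivity) ?_
  linarith

lemma ph_tendsto : Tendsto (fun N : ℕ => ph (N : ℝ)) atTop atTop :=
  tendsto_sqrt_atTop.comp (psi_tendsto.comp
    (tendsto_log_atTop.comp tendsto_natCast_atTop_atTop))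

/-- **Sets close to a square progression.** -/
theorem quad : ∀ᶠ N : ℕ in atTop, ∀ (A : Set ℕ) (α δ : ℝ),
    sqrt N * exp (-(1 / 40 * ph N)) ≤
      ({a : ℕ | a ∈ A ∧ a ≤ N ∧ ∃ m : ℕ, (m : ℝ) ≤ sqrt N * exp (1 / 40 * ph N) ∧
        |(a : ℝ) - (α * m ^ 2 + δ)| ≤ exp (1 / 100 * ph N)}.ncard : ℝ) →
    ∃ s : ℕ, s ≤ 2 * N ∧ exp (1 / 100 * ph N) ≤ rep A s := by
  classical
  have hlogX : Tendsto (fun X : ℕ => log (X : ℝ)) atTop atTop :=
    tendsto_log_atTop.comp tendsto_natCast_atTop_atTop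
  have hexpo : ∀ᶠ u : ℝ in atTop, 3600 * u ^ 2 ≤ exp (1 / 50 * u) := by
    have h1 := (tendsto_exp_div_pow_atTop 2)
    have h2 : Tendsto (fun u : ℝ => 1 / 50 * u) atTop atTop :=
      tendsto_id.const_mul_atTop (by norm_num)
    filter_upwards [(h1.comp h2).eventually (eventually_ge_atTop (3600 * 2500)),
      eventually_gt_atTop 0] with u hu hu0
    simp only [Function.comp] at hu
    rw [le_div_iff₀ (by positivity)] at hu
    nlinarith
  filter_upwards [hlogX.eventually prime_param, hlogX.eventually (eventually_ge_atTop (3 : ℝ)),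
    ph_tendsto.eventually (eventually_ge_atTop (100 : ℝ)), ph_tendsto.eventually hexpo,
    eventually_ge_atTop 18] with x hE1 hE2 hE3 hE6 hx18 A α δ hx
  obtain ⟨y, hy1, hy2, hy3⟩ := hE1
  set L : ℝ := log (x : ℝ) with hL
  set Ψ : ℝ := L / log L with hΨ
  have hphx : ph x = sqrt Ψ := rfl
  rw [hphx] at hE3 hE6 hx ⊢
  set Φ : ℝ := sqrt Ψ with hΦ
  have hxr : (18 : ℝ) ≤ x := by exact_mod_cast hx18
  have hlogL : 1 ≤ log L := by
    rw [le_log_iff_exp_le (by linarith)]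
    linarith [exp_one_lt_d9]
  have hΨ0 : 0 < Ψ := by positivity
  have hΨL : Ψ ≤ L := by
    rw [hΨ, div_le_iff₀ (by linarith)]
    nlinarith
  have hΦ2 : Φ ^ 2 = Ψ := sq_sqrt hΨ0.le
  have hΦL : Φ ≤ L := by nlinarith
  set G : ℝ := exp (1 / 100 * Φ) with hG
  have hG1 : 1 ≤ G := one_le_exp (by positivity)
  have hexpL : exp L = x := exp_log (by linarith)
  -- the parameters
  set t : ℝ := L / (8 * log L) with ht
  have htΨ : t = Ψ / 8 := by rw [ht, hΨ]; field_simp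
  have ht0 : 0 < t := by rw [htΨ]; positivity
  set m : ℕ := ⌊sqrt t⌋₊ with hm
  have hst1 : Φ / 3 ≤ sqrt t := by
    refine le_sqrt_of_sq_le ?_
    rw [htΨ, div_pow, hΦ2]
    linarith
  have hst2 : sqrt t ≤ Φ := by
    rw [hΦ]
    refine sqrt_le_sqrt ?_
    rw [htΨ]
    linarith
  have hm0 : 0 < m := by
    rw [hm, Nat.floor_pos]
    linarith
  have hmle : (m : ℝ) ≤ sqrt t := Nat.floor_le (by positivity)
  have hmge : sqrt t - 1 < m := Nat.sub_one_lt_floor _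
  have hmr : (0 : ℝ) < m := by exact_mod_cast hm0
  have hmw : ((m * m : ℕ) : ℝ) ≤ t := by
    push_cast
    calc (m : ℝ) * m ≤ sqrt t * sqrt t := mul_le_mul hmle hmle (by positivity) (by positivity)
      _ = t := mul_self_sqrt ht0.le
  have hmw' : m * m ≤ (S1 y).card := by exact_mod_cast hmw.trans hy2
  have hsx : exp (L / 2) = sqrt x := by
    symm
    rw [sqrt_eq_iff_eq_sq (by positivity) (exp_pos _).le, ← exp_nat_mul, ← hexpL]
    congr 1
    push_cast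
    ring
  set Y : ℝ := sqrt x * exp (1 / 40 * Φ) with hY
  have hbig : exp (L / 8) ≤ Y := by
    rw [hY, ← hsx, ← exp_add]
    refine exp_le_exp.mpr ?_
    have : 0 ≤ Φ := by positivity
    linarith
  set X : ℕ := ⌊Y⌋₊ + 1 with hX
  have hXge : Y ≤ X := by
    rw [hX]
    push_cast
    exact (Nat.lt_floor_add_one _).le
  have hyX : y ^ (m * m) ≤ X := by
    have h1 := hy3 (m * m) hmw
    exact_mod_cast (h1.trans hbig).trans hXge
  have hX0 : (0 : ℝ) < X := lt_of_lt_of_le (exp_pos _) (hbig.trans hXge)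
  have hXle : (X : ℝ) ≤ 2 * Y := by
    have h1 : ((⌊Y⌋₊ : ℕ) : ℝ) ≤ Y := Nat.floor_le (by positivity)
    have h2 : 1 ≤ exp (L / 8) := one_le_exp (by positivity)
    rw [hX]
    push_cast
    linarith
  -- the sets
  have hfin : {a : ℕ | a ∈ A ∧ a ≤ x ∧ ∃ m : ℕ, (m : ℝ) ≤ Y ∧
      |(a : ℝ) - (α * m ^ 2 + δ)| ≤ G}.Finite := by
    refine (Set.finite_Iic x).subset ?_
    rintro a ⟨_, h, _⟩
    exact h
  obtain ⟨S, a, hS1, hinj, hS2, hSN, hS3, hS4⟩ := extract' A α δ G Y hG1 x hfin.toFinset (by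
    intro a ha
    rw [Set.Finite.mem_toFinset] at ha
    exact ha)
  have hBcard : sqrt x * exp (-(1 / 40 * Φ)) ≤ (hfin.toFinset.card : ℝ) := by
    rw [← Set.ncard_eq_toFinset_card _ hfin]
    exact hx
  have hScard : 1 / 6 * exp (-(3 / 50 * Φ)) * X ≤ (S.card : ℝ) := by
    have h1 : sqrt x * exp (-(1 / 40 * Φ)) ≤ 3 * G * S.card := hBcard.trans hS4
    have h2 : 1 / 6 * exp (-(3 / 50 * Φ)) * X ≤
        1 / 3 * (exp (-(3 / 50 * Φ)) * exp (1 / 40 * Φ)) * sqrt x := by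
      have : 1 / 6 * exp (-(3 / 50 * Φ)) * X ≤ 1 / 6 * exp (-(3 / 50 * Φ)) * (2 * Y) :=
        mul_le_mul_of_nonneg_left hXle (by positivity)
      rw [hY] at this
      linarith
    have h3 : exp (-(3 / 50 * Φ)) * exp (1 / 40 * Φ) =
        exp (-(1 / 40 * Φ)) * exp (-(1 / 100 * Φ)) := by
      rw [← exp_add, ← exp_add]
      congr 1
      ring
    have h4 : exp (-(1 / 100 * Φ)) * G = 1 := by
      rw [hG, ← exp_add]
      simp
    have h5 : (sqrt x * exp (-(1 / 40 * Φ))) * exp (-(1 / 100 * Φ)) ≤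
        (3 * G * S.card) * exp (-(1 / 100 * Φ)) :=
      mul_le_mul_of_nonneg_right h1 (exp_pos _).le
    have h6 : (3 * G * S.card) * exp (-(1 / 100 * Φ)) = 3 * S.card := by
      calc (3 * G * S.card) * exp (-(1 / 100 * Φ)) =
          3 * S.card * (exp (-(1 / 100 * Φ)) * G) := by ring
        _ = 3 * S.card := by rw [h4, mul_one]
    rw [h3] at h2
    rw [h6] at h5
    calc 1 / 6 * exp (-(3 / 50 * Φ)) * X ≤
        1 / 3 * (exp (-(1 / 40 * Φ)) * exp (-(1 / 100 * Φ))) * sqrt x := h2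
      _ = 1 / 3 * ((sqrt x * exp (-(1 / 40 * Φ))) * exp (-(1 / 100 * Φ))) := by ring
      _ ≤ 1 / 3 * (3 * S.card) := mul_le_mul_of_nonneg_left h5 (by norm_num)
      _ = S.card := by ring
  have hexp12 : exp (1 / 2 : ℝ) ≤ 5 / 3 := by
    have := five_thirds 1
    simpa using this
  have hΦ0 : 0 < Φ := by linarith
  have hcond : 4 * (3 / 5 : ℝ) ^ m ≤ 1 / 6 * exp (-(3 / 50 * Φ)) := by
    have h1 : (3 / 5 : ℝ) ^ m ≤ exp (1 / 2 - Φ / 6) := by
      refine (three_fifths m).trans (exp_le_exp.mpr ?_)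
      linarith
    have h2 : exp (1 / 2 - Φ / 6) ≤ 5 / 3 * exp (-(Φ / 6)) := by
      rw [sub_eq_add_neg, exp_add]
      exact mul_le_mul_of_nonneg_right hexp12 (exp_pos _).le
    have h3 : 60 ≤ exp (1 / 10 * Φ) := by
      have h30 : (10 : ℝ) ≤ 1 / 10 * Φ := by linarith
      have h31 : exp (5 : ℝ) ≤ exp (1 / 10 * Φ) := exp_le_exp.mpr (by linarith)
      have h32 : (64 : ℝ) ≤ exp 5 := by
        have h33 : (5 / 2 : ℝ) ≤ exp 1 := by linarith [exp_one_gt_d9]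
        calc (64 : ℝ) ≤ (5 / 2) ^ 5 := by norm_num
          _ ≤ exp 1 ^ 5 := pow_le_pow_left₀ (by norm_num) h33 5
          _ = exp 5 := by rw [← exp_nat_mul]; norm_num
      linarith
    have h4 : exp (-(Φ / 6)) * 60 ≤ exp (-(3 / 50 * Φ)) := by
      calc exp (-(Φ / 6)) * 60 ≤ exp (-(Φ / 6)) * exp (1 / 10 * Φ) :=
            mul_le_mul_of_nonneg_left h3 (exp_pos _).le
        _ = exp (-(Φ / 6) + 1 / 10 * Φ) := by rw [exp_add]
        _ ≤ exp (-(3 / 50 * Φ)) := exp_le_exp.mpr (by linarith)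
    have := exp_pos (-(Φ / 6))
    linarith
  obtain ⟨s, hs1, hs2⟩ := master' A α δ G hG1 hm0 hm0 hy1 hmw' hyX S hS1
    (le_trans (mul_le_mul_of_nonneg_right hcond hX0.le) hScard) a hinj hS2 x hSN hS3
  refine ⟨s, hs1, le_trans ?_ hs2⟩
  have h1 : 1 / 6 * exp (-(3 / 50 * Φ)) / Φ ≤ (S.card : ℝ) / (m * X) := by
    rw [div_le_div_iff₀ hΦ0 (by positivity)]
    calc 1 / 6 * exp (-(3 / 50 * Φ)) * (m * X) = (1 / 6 * exp (-(3 / 50 * Φ)) * X) * m := by ring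
      _ ≤ S.card * m := mul_le_mul_of_nonneg_right hScard hmr.le
      _ ≤ S.card * Φ := mul_le_mul_of_nonneg_left (hmle.trans hst2) (Nat.cast_nonneg _)
  have h2 : exp (Φ / 6 - 1 / 2) ≤ (5 / 3 : ℝ) ^ m := by
    refine le_trans (exp_le_exp.mpr ?_) (five_thirds m)
    linarith
  have h3 : (1 / 6 * exp (-(3 / 50 * Φ)) / Φ) ^ 2 * exp (Φ / 6 - 1 / 2) / (60 * G) ≤
      ((S.card : ℝ) / (m * X)) ^ 2 * (5 / 3 : ℝ) ^ m / (60 * G) := by
    refine div_le_div_of_nonneg_right ?_ (by positivity)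
    exact mul_le_mul (pow_le_pow_left₀ (by positivity) h1 2) h2 (exp_pos _).le (by positivity)
  refine le_trans ?_ h3
  have h4 : exp (Φ / 6) * (3 / 5) ≤ exp (Φ / 6 - 1 / 2) := by
    rw [sub_eq_add_neg, exp_add, exp_neg (1 / 2)]
    refine mul_le_mul_of_nonneg_left ?_ (exp_pos _).le
    rw [show (3 / 5 : ℝ) = (5 / 3)⁻¹ by norm_num]
    exact inv_anti₀ (exp_pos _) hexp12
  rw [le_div_iff₀ (by positivity), div_pow, div_mul_eq_mul_div, le_div_iff₀ (by positivity)]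
  have h9 : (1 / 6 * exp (-(3 / 50 * Φ))) ^ 2 = 1 / 36 * exp (-(3 / 25 * Φ)) := by
    rw [mul_pow, ← exp_nat_mul]
    norm_num
    ring
  rw [h9]
  have h10 : exp (1 / 100 * Φ) * (60 * G) * Φ ^ 2 = 60 * Φ ^ 2 * exp (1 / 50 * Φ) := by
    rw [hG]
    have : exp (1 / 100 * Φ) * exp (1 / 100 * Φ) = exp (1 / 50 * Φ) := by
      rw [← exp_add]
      congr 1
      ring
    calc exp (1 / 100 * Φ) * (60 * exp (1 / 100 * Φ)) * Φ ^ 2
        = 60 * Φ ^ 2 * (exp (1 / 100 * Φ) * exp (1 / 100 * Φ)) := by ring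
      _ = _ := by rw [this]
  rw [h10]
  calc 60 * Φ ^ 2 * exp (1 / 50 * Φ) = 1 / 60 * (3600 * Φ ^ 2) * exp (1 / 50 * Φ) := by ring
    _ ≤ 1 / 60 * exp (1 / 50 * Φ) * exp (1 / 50 * Φ) := by
        refine mul_le_mul_of_nonneg_right ?_ (exp_pos _).le
        linarith
    _ = 1 / 60 * exp (1 / 25 * Φ) := by
        rw [mul_assoc, ← exp_add]
        congr 2
        ring
    _ ≤ 1 / 60 * exp (-(3 / 25 * Φ) + Φ / 6) := by
        refine mul_le_mul_of_nonneg_left (exp_le_exp.mpr ?_) (by norm_num)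
        linarith
    _ = 1 / 36 * exp (-(3 / 25 * Φ)) * (exp (Φ / 6) * (3 / 5)) := by
        rw [exp_add]
        ring
    _ ≤ 1 / 36 * exp (-(3 / 25 * Φ)) * exp (Φ / 6 - 1 / 2) :=
        mul_le_mul_of_nonneg_left h4 (by positivity)

end Pool.Agent.N715.QC
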