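import Mathlib
import Pool.Agent.N715.QC.Core

/-!
# Polynomials with integer values at consecutive integers
-/

open Finset Filter Topology Real Polynomial

namespace Pool.Agent.N715.QC

open Pool.Agent.H397R2.NS

/-- `exp (√(log x / log log x) / 200)`. -/
noncomputable def Er (x : ℝ) : ℝ := exp (1 / 200 * ph x)

lemma ph_nonneg (x : ℝ) : 0 ≤ ph x := sqrt_nonneg _

lemma Er_one (x : ℝ) : 1 ≤ Er x := one_le_exp (mul_nonneg (by norm_num) (ph_nonneg x))

lemma Er_pow (x : ℝ) (k : ℕ) : Er x ^ k = exp (k / 200 * ph x) := by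
  unfold Er
  rw [← exp_nat_mul]
  congr 1
  ring

lemma diff_eq (P : ℝ[X]) (h : ℕ) (hh : 0 < h) :
    ∑ k ∈ range (P.natDegree + 1),
      (((-1 : ℤ) ^ (P.natDegree - k) * (P.natDegree.choose k : ℤ) : ℤ) : ℝ) *
        P.eval (((h * k : ℕ) : ℝ)) =
      P.leadingCoeff * (h : ℝ) ^ P.natDegree * (P.natDegree.factorial : ℝ) := by
  set Q : ℝ[X] := P.comp (C (h : ℝ) * X) with hQ
  have hh' : (h : ℝ) ≠ 0 := by positivity
  have hnd1 : (C (h : ℝ) * X : ℝ[X]).natDegree = 1 := natDegree_C_mul_X _ hh'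
  have hnd : Q.natDegree = P.natDegree := by
    rw [hQ, natDegree_comp, hnd1, mul_one]
  have hlc : Q.leadingCoeff = P.leadingCoeff * (h : ℝ) ^ P.natDegree := by
    rw [hQ, leadingCoeff_comp (by rw [hnd1]; norm_num), leadingCoeff_mul, leadingCoeff_C,
      leadingCoeff_X, mul_one]
  have h1 := congr_fun (Polynomial.fwdDiff_iter_degree_eq_factorial Q) 0
  rw [fwdDiff_iter_eq_sum_shift, hnd, hlc] at h1
  simp only [Pi.smul_apply, smul_eq_mul, zsmul_eq_mul, zero_add, nsmul_eq_mul, mul_one,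
    Pi.natCast_apply] at h1
  rw [← h1]
  refine Finset.sum_congr rfl fun k _ => ?_
  rw [hQ, eval_comp]
  simp

lemma lead_int {P : ℝ[X]} {ℓ : ℕ} (hd : P.natDegree < ℓ) (hP : P ≠ 0)
    (hint : ∀ t < ℓ, ∃ z : ℤ, P.eval (t : ℝ) = z) :
    1 ≤ |P.leadingCoeff * (P.natDegree.factorial : ℝ)| := by
  have h1 := diff_eq P 1 one_pos
  have h2 : ∃ z : ℤ, P.leadingCoeff * (P.natDegree.factorial : ℝ) = z := by
    choose! g hg using hint
    refine ⟨∑ k ∈ range (P.natDegree + 1),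
      ((-1 : ℤ) ^ (P.natDegree - k) * (P.natDegree.choose k : ℤ)) * g k, ?_⟩
    rw [Nat.cast_one, one_pow, mul_one] at h1
    rw [← h1]
    push_cast
    refine Finset.sum_congr rfl fun k hk => ?_
    rw [Finset.mem_range] at hk
    rw [← hg k (by omega), one_mul]
  obtain ⟨z, hz⟩ := h2
  rw [hz]
  have hz0 : z ≠ 0 := by
    rintro rfl
    rw [Int.cast_zero, mul_eq_zero] at hz
    rcases hz with hz | hz
    · exact hP (leadingCoeff_eq_zero.mp hz)
    · exact absurd hz (by positivity)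
  exact_mod_cast Int.one_le_abs hz0

/-- Bound for the `h`-differences. -/
lemma growth {P : ℝ[X]} {ℓ h : ℕ} (hh : 0 < h) (hd : P.natDegree * h < ℓ) (hP : P ≠ 0) (M : ℝ)
    (hint : ∀ t < ℓ, ∃ z : ℤ, P.eval (t : ℝ) = z) (hM : ∀ t < ℓ, |P.eval (t : ℝ)| ≤ M) :
    (h : ℝ) ^ P.natDegree ≤ 2 ^ P.natDegree * M := by
  have h1 := diff_eq P h hh
  have hdl : P.natDegree < ℓ := lt_of_le_of_lt (Nat.le_mul_of_pos_right _ hh) hd
  have h2 := lead_int hdl hP hint
  have h3 : |P.leadingCoeff * (h : ℝ) ^ P.natDegree * (P.natDegree.factorial : ℝ)| ≤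
      ∑ k ∈ range (P.natDegree + 1), (P.natDegree.choose k : ℝ) * M := by
    rw [← h1]
    refine (Finset.abs_sum_le_sum_abs _ _).trans (Finset.sum_le_sum fun k hk => ?_)
    rw [Finset.mem_range] at hk
    rw [abs_mul]
    refine mul_le_mul ?_ (hM _ ?_) (abs_nonneg _) (Nat.cast_nonneg _)
    · push_cast
      rw [abs_mul, abs_pow, abs_neg, abs_one, one_pow, one_mul, abs_of_nonneg (Nat.cast_nonneg _)]
    · refine lt_of_le_of_lt ?_ hd
      rw [mul_comm]
      exact Nat.mul_le_mul_right _ (by omega)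
  have h4 : ∑ k ∈ range (P.natDegree + 1), (P.natDegree.choose k : ℝ) * M =
      2 ^ P.natDegree * M := by
    rw [← Finset.sum_mul]
    congr 1
    exact_mod_cast Nat.sum_range_choose P.natDegree
  rw [h4] at h3
  refine le_trans ?_ h3
  have h5 : |P.leadingCoeff * (h : ℝ) ^ P.natDegree * (P.natDegree.factorial : ℝ)| =
      |P.leadingCoeff * (P.natDegree.factorial : ℝ)| * (h : ℝ) ^ P.natDegree := by
    rw [show P.leadingCoeff * (h : ℝ) ^ P.natDegree * (P.natDegree.factorial : ℝ) =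
      (P.leadingCoeff * (P.natDegree.factorial : ℝ)) * (h : ℝ) ^ P.natDegree by ring, abs_mul,
      abs_of_nonneg (by positivity : (0 : ℝ) ≤ (h : ℝ) ^ P.natDegree)]
  rw [h5]
  exact le_mul_of_one_le_left (by positivity) h2

/-- Quadratic polynomials with integer values are square progressions. -/
lemma quad_form {P : ℝ[X]} (h2 : P.natDegree = 2) {ℓ h : ℕ} (hh : 0 < h) (hd : 2 * h < ℓ)
    (hl : ℓ ≤ 4 * h) (M : ℝ)
    (hint : ∀ t < ℓ, ∃ z : ℤ, P.eval (t : ℝ) = z) (hM : ∀ t < ℓ, |P.eval (t : ℝ)| ≤ M) :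
    ∃ α δ : ℝ, ∀ t < ℓ, ∃ m : ℕ, (m : ℝ) ≤ 40 * M / h ∧ P.eval (t : ℝ) = α * m ^ 2 + δ := by
  obtain ⟨a, b, c, ha, hP⟩ : ∃ a b c : ℝ, a ≠ 0 ∧ ∀ x : ℝ, P.eval x = a * x ^ 2 + b * x + c := by
    refine ⟨P.coeff 2, P.coeff 1, P.coeff 0, ?_, fun x => ?_⟩
    · have h3 : P.leadingCoeff ≠ 0 := by
        intro h3
        rw [leadingCoeff_eq_zero] at h3
        rw [h3] at h2
        simp at h2
      rwa [leadingCoeff, h2] at h3
    · rw [eval_eq_sum_range, h2]
      simp [Finset.sum_range_succ]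
      ring
  have hhr : (0 : ℝ) < h := by exact_mod_cast hh
  -- integrality
  obtain ⟨z0, hz0⟩ := hint 0 (by omega)
  obtain ⟨z1, hz1⟩ := hint 1 (by omega)
  obtain ⟨z2, hz2⟩ := hint 2 (by omega)
  rw [hP] at hz0 hz1 hz2
  push_cast at hz0 hz1 hz2
  have hq : 2 * a = ((z2 - 2 * z1 + z0 : ℤ) : ℝ) := by push_cast; linarith
  have hb : 2 * b = ((2 * (z1 - z0) - (z2 - 2 * z1 + z0) : ℤ) : ℝ) := by push_cast; linarith
  -- bounds
  have b0 := hM 0 (by omega)
  have b1 := hM h (by omega)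
  have b2 := hM (2 * h) (by omega)
  rw [hP] at b0 b1 b2
  push_cast at b0 b1 b2
  rw [abs_le] at b0 b1 b2
  have ha1 : |a| * h ^ 2 ≤ 2 * M := by
    rw [← abs_of_nonneg (by positivity : (0 : ℝ) ≤ (h : ℝ) ^ 2), ← abs_mul, abs_le]
    constructor <;> nlinarith
  have hb1 : |b| * h ≤ 4 * M := by
    have : |b * h| ≤ 4 * M := by
      have h5 := abs_le.mp (show |a * (h : ℝ) ^ 2| ≤ 2 * M by
        rwa [abs_mul, abs_of_nonneg (by positivity : (0 : ℝ) ≤ (h : ℝ) ^ 2)])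
      rw [abs_le]
      constructor <;> nlinarith
    rwa [abs_mul, abs_of_nonneg hhr.le] at this
  refine ⟨1 / (16 * a), c - b ^ 2 / (4 * a), fun t ht => ?_⟩
  set z : ℤ := 2 * (z2 - 2 * z1 + z0) * t + (2 * (z1 - z0) - (z2 - 2 * z1 + z0)) with hz
  have hzr : (z : ℝ) = 4 * a * t + 2 * b := by
    rw [hz, Int.cast_add, ← hb, Int.cast_mul, Int.cast_mul, ← hq]
    push_cast
    ring
  have hzabs : ((z.natAbs : ℕ) : ℝ) = |(z : ℝ)| := by
    rw [Nat.cast_natAbs]
    push_cast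
    rfl
  refine ⟨z.natAbs, ?_, ?_⟩
  · rw [hzabs, hzr, le_div_iff₀ hhr]
    have ht4 : (t : ℝ) ≤ 4 * h := by
      have : t ≤ 4 * h := by omega
      exact_mod_cast this
    have hM0 : 0 ≤ M := by
      have : 0 ≤ |a| * h ^ 2 := by positivity
      linarith
    calc |4 * a * t + 2 * b| * h ≤ (|4 * a * t| + |2 * b|) * h :=
          mul_le_mul_of_nonneg_right (abs_add_le _ _) hhr.le
      _ = 4 * |a| * t * h + 2 * (|b| * h) := by
          rw [abs_mul, abs_mul, abs_mul, abs_of_nonneg (by norm_num : (0 : ℝ) ≤ 4),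
            abs_of_nonneg (by norm_num : (0 : ℝ) ≤ 2),
            abs_of_nonneg (Nat.cast_nonneg t : (0 : ℝ) ≤ (t : ℝ))]
          ring
      _ ≤ 4 * |a| * (4 * h) * h + 2 * (4 * M) := by
          refine add_le_add ?_ (by linarith)
          refine mul_le_mul_of_nonneg_right ?_ hhr.le
          exact mul_le_mul_of_nonneg_left ht4 (by positivity)
      _ = 16 * (|a| * h ^ 2) + 8 * M := by ring
      _ ≤ 16 * (2 * M) + 8 * M := by linarith
      _ = 40 * M := by ring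
  · rw [hzabs, sq_abs, hzr, hP]
    field_simp
    ring

end Pool.Agent.N715.QC
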