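import Mathlib
import Pool.Agent.N715.QC.Poly

/-!
# Coverings by few square progressions, polynomial progressions, and integral splines
-/

open Finset Filter Topology Real Polynomial

namespace Pool.Agent.N715.QC

open Pool.Agent.H397R2.NS

lemma ph_le_log : ∀ᶠ N : ℕ in atTop, ph (N : ℝ) ≤ log N := by
  have hlogX : Tendsto (fun X : ℕ => log (X : ℝ)) atTop atTop :=
    tendsto_log_atTop.comp tendsto_natCast_atTop_atTop
  filter_upwards [hlogX.eventually (eventually_ge_atTop (3 : ℝ))] with N h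
  have h1 : 1 ≤ log (log (N : ℝ)) := by
    rw [le_log_iff_exp_le (by linarith)]
    linarith [exp_one_lt_d9]
  unfold ph
  rw [sqrt_le_left (by linarith), div_le_iff₀ (by linarith)]
  nlinarith

lemma sqrt_eq_exp {N : ℕ} (hN : 1 ≤ N) : sqrt (N : ℝ) = exp (log N / 2) := by
  have h : (0 : ℝ) < N := by exact_mod_cast hN
  rw [sqrt_eq_iff_eq_sq h.le (exp_pos _).le, ← exp_nat_mul]
  push_cast
  rw [show (2 : ℝ) * (log N / 2) = log N by ring, exp_log h]

lemma big (C : ℝ) (k : ℕ) (hk : k ≤ 50) : ∀ᶠ N : ℕ in atTop, C * Er N ^ k ≤ sqrt N := by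
  have hlogX : Tendsto (fun X : ℕ => log (X : ℝ)) atTop atTop :=
    tendsto_log_atTop.comp tendsto_natCast_atTop_atTop
  have h2 : Tendsto (fun X : ℕ => exp (log (X : ℝ) / 4)) atTop atTop :=
    tendsto_exp_atTop.comp (hlogX.atTop_div_const (by norm_num))
  filter_upwards [ph_le_log, hlogX.eventually (eventually_ge_atTop (3 : ℝ)),
    h2.eventually (eventually_ge_atTop C), eventually_ge_atTop 1] with N h1 h3 h4 h5
  rw [Er_pow, sqrt_eq_exp h5]
  have h6 : exp ((k : ℝ) / 200 * ph N) ≤ exp (log N / 4) := by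
    refine exp_le_exp.mpr ?_
    have h7 : (k : ℝ) ≤ 50 := by exact_mod_cast hk
    have h8 := ph_nonneg N
    calc (k : ℝ) / 200 * ph N ≤ 50 / 200 * ph N :=
          mul_le_mul_of_nonneg_right (by linarith) h8
      _ ≤ log N / 4 := by linarith
  calc C * exp ((k : ℝ) / 200 * ph N) ≤ exp (log N / 4) * exp (log N / 4) :=
        mul_le_mul h4 h6 (exp_pos _).le (exp_pos _).le
    _ = exp (log N / 2) := by
      rw [← exp_add]
      congr 1
      ring

lemma Er_tendsto : Tendsto (fun N : ℕ => Er (N : ℝ)) atTop atTop :=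
  tendsto_exp_atTop.comp (ph_tendsto.const_mul_atTop (by norm_num))

open Classical in
/-- **One polynomial progression.** -/
theorem piece (D : ℕ) : ∀ᶠ N : ℕ in atTop, ∀ (A : Set ℕ) (P : ℝ[X]) (ℓ : ℕ), P.natDegree ≤ D →
    (∀ t < ℓ, ∃ z : ℤ, P.eval (t : ℝ) = z) → (∀ t < ℓ, |P.eval (t : ℝ)| ≤ 2 * N) →
    (ℓ : ℝ) ≤ sqrt N * Er N →
    sqrt N / Er N ^ 2 ≤
      ({a : ℕ | a ∈ A ∧ a ≤ N ∧ ∃ t : ℕ, t < ℓ ∧ |(a : ℝ) - P.eval (t : ℝ)| ≤ Er N}.ncard : ℝ) →
    ∃ s : ℕ, s ≤ 2 * N ∧ Er N ^ 2 ≤ rep A s := by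
  filter_upwards [quad, big 10 8 (by norm_num), big (3 * (D + 2)) 3 (by norm_num),
    big (216 * (D + 1) ^ 3 * 2 ^ (D + 1) + 1) 9 (by norm_num),
    Er_tendsto.eventually (eventually_ge_atTop (960 : ℝ)), eventually_ge_atTop 1,
    big 9 3 (by norm_num)]
    with N hquad hb1 hb2 hb3 hE hN hb4 A P ℓ hD hint hM hℓ hcard
  have hE1 := Er_one N
  have hE0 : 0 < Er N := by linarith
  have hNr : (1 : ℝ) ≤ N := by exact_mod_cast hN
  have hs0 : 0 < sqrt (N : ℝ) := sqrt_pos.mpr (by linarith)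
  have hss : sqrt (N : ℝ) * sqrt N = N := mul_self_sqrt (by linarith)
  have hfin : {a : ℕ | a ∈ A ∧ a ≤ N ∧ ∃ t : ℕ, t < ℓ ∧
      |(a : ℝ) - P.eval (t : ℝ)| ≤ Er N}.Finite := by
    refine (Set.finite_Iic N).subset ?_
    rintro a ⟨_, h, _⟩
    exact h
  obtain ⟨B, hB⟩ : ∃ B : Finset ℕ, (B : Set ℕ) = {a : ℕ | a ∈ A ∧ a ≤ N ∧ ∃ t : ℕ, t < ℓ ∧
      |(a : ℝ) - P.eval (t : ℝ)| ≤ Er N} := ⟨hfin.toFinset, hfin.coe_toFinset⟩
  have hBm : ∀ a ∈ B, a ∈ A ∧ a ≤ N ∧ ∃ t : ℕ, t < ℓ ∧ |(a : ℝ) - P.eval (t : ℝ)| ≤ Er N := by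
    intro a ha
    have : a ∈ (B : Set ℕ) := ha
    rw [hB] at this
    exact this
  have hcard' : sqrt N / Er N ^ 2 ≤ (B.card : ℝ) := by
    rw [← hB, Set.ncard_coe_finset] at hcard
    exact hcard
  -- the length of the piece
  have hBl : (B.card : ℝ) ≤ ℓ * (3 * Er N) := by
    have h1 : B ⊆ (range ℓ).biUnion (fun t =>
        Finset.Icc ⌈P.eval (t : ℝ) - 2 * (Er N / 2)⌉₊ ⌊P.eval (t : ℝ) + 2 * (Er N / 2)⌋₊) := by
      intro a ha
      obtain ⟨_, _, t, ht, hat⟩ := hBm a ha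
      have h3 := abs_le.mp hat
      rw [Finset.mem_biUnion]
      refine ⟨t, Finset.mem_range.mpr ht, ?_⟩
      rw [Finset.mem_Icc]
      exact ⟨Nat.ceil_le.mpr (by linarith [h3.1]), Nat.le_floor (by linarith [h3.2])⟩
    have h2 := (Finset.card_le_card h1).trans Finset.card_biUnion_le
    calc (B.card : ℝ) ≤ ((∑ t ∈ range ℓ, (Finset.Icc ⌈P.eval (t : ℝ) - 2 * (Er N / 2)⌉₊
          ⌊P.eval (t : ℝ) + 2 * (Er N / 2)⌋₊).card : ℕ) : ℝ) := by exact_mod_cast h2
      _ = ∑ t ∈ range ℓ, ((Finset.Icc ⌈P.eval (t : ℝ) - 2 * (Er N / 2)⌉₊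
          ⌊P.eval (t : ℝ) + 2 * (Er N / 2)⌋₊).card : ℝ) := by push_cast; rfl
      _ ≤ ∑ _t ∈ range ℓ, (3 * Er N) := by
          refine Finset.sum_le_sum fun t _ => ?_
          refine (card_window _ _ (by linarith)).trans ?_
          linarith
      _ = ℓ * (3 * Er N) := by rw [Finset.sum_const, Finset.card_range, nsmul_eq_mul]
  have hlen : sqrt (N : ℝ) ≤ 3 * Er N ^ 3 * ℓ := by
    have h1 := hcard'.trans hBl
    rw [div_le_iff₀ (by positivity)] at h1
    calc sqrt (N : ℝ) ≤ ℓ * (3 * Er N) * Er N ^ 2 := h1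
      _ = 3 * Er N ^ 3 * ℓ := by ring
  have hlD : D + 2 ≤ ℓ := by
    have h1 : 3 * ((D : ℝ) + 2) * Er N ^ 3 ≤ 3 * Er N ^ 3 * ℓ := hb2.trans hlen
    have h2 : ((D : ℝ) + 2) ≤ ℓ := by
      have h3 : 0 < 3 * Er N ^ 3 := by positivity
      have h4 : 3 * Er N ^ 3 * ((D : ℝ) + 2) ≤ 3 * Er N ^ 3 * ℓ := by linarith
      exact le_of_mul_le_mul_left h4 h3
    exact_mod_cast h2
  rcases Nat.lt_trichotomy P.natDegree 2 with hdeg | hdeg | hdeg
  · -- degree at most one
    obtain ⟨c, e, hP⟩ : ∃ c e : ℝ, ∀ x : ℝ, P.eval x = c * x + e := by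
      refine ⟨P.coeff 1, P.coeff 0, fun x => ?_⟩
      rw [eval_eq_sum_range' (show P.natDegree < 2 from hdeg)]
      simp [Finset.sum_range_succ]
      ring
    have hb0 : (0 : ℝ) < (sqrt N / Er N ^ 2) ^ 2 := by positivity
    obtain ⟨s, hs1, hs2⟩ := pigeon A N (B ×ˢ B) (by
        intro z hz
        rw [Finset.mem_product] at hz
        exact ⟨(hBm _ hz.1).1, (hBm _ hz.2).1, (hBm _ hz.1).2.1, (hBm _ hz.2).2.1⟩)
      ((range (2 * ℓ)).biUnion (fun u =>
        Finset.Icc ⌈(c * (u : ℝ) + 2 * e) - 2 * Er N⌉₊ ⌊(c * (u : ℝ) + 2 * e) + 2 * Er N⌋₊))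
      (by
        intro z hz
        rw [Finset.mem_product] at hz
        obtain ⟨_, _, t, ht, hat⟩ := hBm _ hz.1
        obtain ⟨_, _, t', ht', hat'⟩ := hBm _ hz.2
        rw [hP] at hat hat'
        have h3 := abs_le.mp hat
        have h4 := abs_le.mp hat'
        rw [Finset.mem_biUnion]
        refine ⟨t + t', Finset.mem_range.mpr (by omega), ?_⟩
        rw [Finset.mem_Icc]
        push_cast
        exact ⟨Nat.ceil_le.mpr (by push_cast; linarith [h3.1, h4.1]),
          Nat.le_floor (by push_cast; linarith [h3.2, h4.2])⟩)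
      ((sqrt N / Er N ^ 2) ^ 2) (10 * sqrt N * Er N ^ 2) hb0 (by positivity)
      (by
        rw [Finset.card_product]
        push_cast
        rw [← sq]
        exact pow_le_pow_left₀ (by positivity) hcard' 2)
      (by
        have h2 := Finset.card_biUnion_le (s := range (2 * ℓ)) (t := fun u : ℕ =>
          Finset.Icc ⌈(c * (u : ℝ) + 2 * e) - 2 * Er N⌉₊ ⌊(c * (u : ℝ) + 2 * e) + 2 * Er N⌋₊)
        have h3 : (((range (2 * ℓ)).biUnion (fun u : ℕ =>
            Finset.Icc ⌈(c * (u : ℝ) + 2 * e) - 2 * Er N⌉₊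
              ⌊(c * (u : ℝ) + 2 * e) + 2 * Er N⌋₊)).card : ℝ) ≤
            ((2 * ℓ : ℕ) : ℝ) * (5 * Er N) := by
          calc (((range (2 * ℓ)).biUnion (fun u : ℕ =>
              Finset.Icc ⌈(c * (u : ℝ) + 2 * e) - 2 * Er N⌉₊
                ⌊(c * (u : ℝ) + 2 * e) + 2 * Er N⌋₊)).card : ℝ) ≤
              ((∑ u ∈ range (2 * ℓ), (Finset.Icc ⌈(c * (u : ℝ) + 2 * e) - 2 * Er N⌉₊
                ⌊(c * (u : ℝ) + 2 * e) + 2 * Er N⌋₊).card : ℕ) : ℝ) := by exact_mod_cast h2
            _ = ∑ u ∈ range (2 * ℓ), ((Finset.Icc ⌈(c * (u : ℝ) + 2 * e) - 2 * Er N⌉₊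
                ⌊(c * (u : ℝ) + 2 * e) + 2 * Er N⌋₊).card : ℝ) := by push_cast; rfl
            _ ≤ ∑ _u ∈ range (2 * ℓ), (5 * Er N) := by
                refine Finset.sum_le_sum fun t _ => ?_
                refine (card_window _ _ hE0.le).trans ?_
                linarith
            _ = ((2 * ℓ : ℕ) : ℝ) * (5 * Er N) := by
                rw [Finset.sum_const, Finset.card_range, nsmul_eq_mul]
        refine h3.trans ?_
        push_cast
        calc 2 * (ℓ : ℝ) * (5 * Er N) = 10 * Er N * ℓ := by ring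
          _ ≤ 10 * Er N * (sqrt N * Er N) := mul_le_mul_of_nonneg_left hℓ (by positivity)
          _ = 10 * sqrt N * Er N ^ 2 := by ring)
    refine ⟨s, hs1, le_trans ?_ hs2⟩
    rw [le_div_iff₀ (by positivity), div_pow, le_div_iff₀ (by positivity), sq (sqrt (N : ℝ))]
    calc Er N ^ 2 * (10 * sqrt N * Er N ^ 2) * (Er N ^ 2) ^ 2 = (10 * Er N ^ 8) * sqrt N := by
          ring
      _ ≤ sqrt N * sqrt N := mul_le_mul_of_nonneg_right hb1 hs0.le
  · -- degree two
    set h := (ℓ - 1) / 2 with hh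
    have hℓ4 : 4 ≤ ℓ := by
      have h1 : 9 * Er N ^ 3 ≤ 3 * Er N ^ 3 * ℓ := hb4.trans hlen
      have h2 : (3 : ℝ) ≤ ℓ := by
        have h3 : 0 < 3 * Er N ^ 3 := by positivity
        have h4 : 3 * Er N ^ 3 * 3 ≤ 3 * Er N ^ 3 * ℓ := by linarith
        exact le_of_mul_le_mul_left h4 h3
      have h5 : 2 ≤ D := by omega
      omega
    have hh0 : 0 < h := by omega
    have hhr : (0 : ℝ) < h := by exact_mod_cast hh0
    obtain ⟨α, δ, hαδ⟩ := quad_form hdeg hh0 (by omega) (by omega) (2 * N) hint hM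
    refine (hquad A α δ ?_).imp fun s hs => ⟨hs.1, ?_⟩
    · have hsub : {a : ℕ | a ∈ A ∧ a ≤ N ∧ ∃ t : ℕ, t < ℓ ∧ |(a : ℝ) - P.eval (t : ℝ)| ≤ Er N} ⊆
          {a : ℕ | a ∈ A ∧ a ≤ N ∧ ∃ m : ℕ, (m : ℝ) ≤ sqrt N * exp (1 / 40 * ph N) ∧
            |(a : ℝ) - (α * m ^ 2 + δ)| ≤ exp (1 / 100 * ph N)} := by
        rintro a ⟨h1, h2, t, ht, hat⟩
        obtain ⟨m, hm1, hm2⟩ := hαδ t ht
        refine ⟨h1, h2, m, ?_, ?_⟩
        · refine hm1.trans ?_
          have h4 : (ℓ : ℝ) ≤ 4 * h := by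
            have : ℓ ≤ 4 * h := by omega
            exact_mod_cast this
          have h5 : sqrt (N : ℝ) ≤ 12 * Er N ^ 3 * h := by
            calc sqrt (N : ℝ) ≤ 3 * Er N ^ 3 * ℓ := hlen
              _ ≤ 3 * Er N ^ 3 * (4 * h) := mul_le_mul_of_nonneg_left h4 (by positivity)
              _ = 12 * Er N ^ 3 * h := by ring
          have h6 : exp (1 / 40 * ph N) = Er N ^ 5 := by
            rw [Er_pow]
            congr 1
            push_cast
            ring
          rw [h6, div_le_iff₀ hhr]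
          calc 40 * (2 * (N : ℝ)) = 80 * sqrt N * sqrt N := by rw [mul_assoc 80, hss]; ring
            _ ≤ 80 * sqrt N * (12 * Er N ^ 3 * h) := mul_le_mul_of_nonneg_left h5 (by positivity)
            _ = sqrt N * (960 * 1 * Er N ^ 3) * h := by ring
            _ ≤ sqrt N * (Er N * Er N * Er N ^ 3) * h := by
                refine mul_le_mul_of_nonneg_right ?_ hhr.le
                refine mul_le_mul_of_nonneg_left ?_ hs0.le
                refine mul_le_mul_of_nonneg_right ?_ (by positivity)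
                exact mul_le_mul hE hE1 (by norm_num) hE0.le
            _ = sqrt N * Er N ^ 5 * h := by ring
        · rw [← hm2]
          refine hat.trans ?_
          unfold Er
          refine exp_le_exp.mpr ?_
          have := ph_nonneg N
          linarith
      have hfin2 : {a : ℕ | a ∈ A ∧ a ≤ N ∧ ∃ m : ℕ, (m : ℝ) ≤ sqrt N * exp (1 / 40 * ph N) ∧
            |(a : ℝ) - (α * m ^ 2 + δ)| ≤ exp (1 / 100 * ph N)}.Finite := by
        refine (Set.finite_Iic N).subset ?_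
        rintro a ⟨_, h, _⟩
        exact h
      have h1 := Set.ncard_le_ncard hsub hfin2
      have h2 : sqrt N * exp (-(1 / 40 * ph N)) ≤ sqrt N / Er N ^ 2 := by
        rw [div_eq_mul_inv]
        refine mul_le_mul_of_nonneg_left ?_ hs0.le
        rw [Er_pow, ← exp_neg]
        refine exp_le_exp.mpr ?_
        have := ph_nonneg N
        push_cast
        linarith
      calc sqrt N * exp (-(1 / 40 * ph N)) ≤ sqrt N / Er N ^ 2 := h2
        _ ≤ _ := hcard
        _ ≤ _ := by exact_mod_cast h1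
    · have : Er N ^ 2 = exp (1 / 100 * ph N) := by
        rw [Er_pow]
        congr 1
        push_cast
        ring
      rw [this]
      exact hs.2
  · -- degree at least three
    exfalso
    have hD3 : 3 ≤ D := by omega
    set h := (ℓ - 1) / D with hh
    have hDh : D * h ≤ ℓ - 1 := Nat.mul_div_le _ _
    have hDh2 : ℓ - 1 < D * (h + 1) := by
      exact Nat.lt_mul_div_succ _ (by omega)
    have hh0 : 0 < h := by
      rw [hh]
      exact Nat.div_pos (by omega) (by omega)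
    have hP0 : P ≠ 0 := by
      rintro rfl
      simp at hdeg
    have h1 := growth hh0 (lt_of_le_of_lt (Nat.mul_le_mul_right h hD) (by omega)) hP0 (2 * N)
      hint hM
    have hh1 : (1 : ℝ) ≤ h := by exact_mod_cast hh0
    have h2 : (h : ℝ) ^ 3 ≤ 2 ^ (D + 1) * N := by
      calc (h : ℝ) ^ 3 ≤ (h : ℝ) ^ P.natDegree := pow_le_pow_right₀ hh1 hdeg
        _ ≤ 2 ^ P.natDegree * (2 * N) := h1
        _ ≤ 2 ^ D * (2 * N) := by
            refine mul_le_mul_of_nonneg_right ?_ (by positivity)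
            exact pow_le_pow_right₀ (by norm_num) hD
        _ = 2 ^ (D + 1) * N := by ring
    have h3 : (ℓ : ℝ) ≤ 2 * (D + 1) * h := by
      have h4 : ℓ ≤ 2 * (D + 1) * h := by
        have h5 : D * (h + 1) ≤ 2 * D * h := by nlinarith
        have h6 : 2 * D * h ≤ 2 * (D + 1) * h := by nlinarith
        omega
      exact_mod_cast h4
    have h4 : sqrt (N : ℝ) ≤ (6 * (D + 1) * Er N ^ 3) * h := by
      calc sqrt (N : ℝ) ≤ 3 * Er N ^ 3 * ℓ := hlen
        _ ≤ 3 * Er N ^ 3 * (2 * (D + 1) * h) := mul_le_mul_of_nonneg_left h3 (by positivity)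
        _ = (6 * (D + 1) * Er N ^ 3) * h := by ring
    have h5 : sqrt (N : ℝ) ^ 3 ≤ (216 * (D + 1) ^ 3 * Er N ^ 9) * (2 ^ (D + 1) * N) := by
      calc sqrt (N : ℝ) ^ 3 ≤ ((6 * (D + 1) * Er N ^ 3) * h) ^ 3 :=
            pow_le_pow_left₀ hs0.le h4 3
        _ = (216 * (D + 1) ^ 3 * Er N ^ 9) * h ^ 3 := by ring
        _ ≤ (216 * (D + 1) ^ 3 * Er N ^ 9) * (2 ^ (D + 1) * N) :=
            mul_le_mul_of_nonneg_left h2 (by positivity)
    have h6 : sqrt (N : ℝ) * N ≤ (216 * (D + 1) ^ 3 * 2 ^ (D + 1) * Er N ^ 9) * N := by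
      calc sqrt (N : ℝ) * N = sqrt N ^ 3 := by
            nth_rewrite 2 [← hss]
            ring
        _ ≤ _ := h5
        _ = _ := by ring
    have h7 := le_of_mul_le_mul_right h6 (by linarith)
    have h8 : 0 < Er N ^ 9 := by positivity
    linarith

lemma union_pigeon {ι : Type*} (N : ℕ) (hN : 1 ≤ N) (F : Finset ι) (S : ι → Set ℕ)
    (U : Set ℕ) (hU : ∀ a ∈ U, ∃ i ∈ F, a ∈ S i) (hS : ∀ i, ∀ a ∈ S i, a ≤ N)
    (hF : (F.card : ℝ) ≤ Er N) (hc : sqrt N ≤ Er N * (U.ncard : ℝ)) :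
    ∃ i ∈ F, sqrt N / Er N ^ 2 ≤ ((S i).ncard : ℝ) := by
  classical
  have hE0 : 0 < Er N := exp_pos _
  have hs0 : 0 < sqrt (N : ℝ) := sqrt_pos.mpr (by exact_mod_cast hN)
  by_contra hcon
  push Not at hcon
  have hsub : U ⊆ ⋃ i ∈ F, S i := by
    intro a ha
    obtain ⟨i, hi, hai⟩ := hU a ha
    exact Set.mem_biUnion hi hai
  have hfin : (⋃ i ∈ F, S i).Finite := by
    refine (Set.finite_Iic N).subset ?_
    intro a ha
    rw [Set.mem_iUnion₂] at ha
    obtain ⟨i, _, hai⟩ := ha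
    exact hS i a hai
  have h1 : U.ncard ≤ ∑ i ∈ F, (S i).ncard :=
    (Set.ncard_le_ncard hsub hfin).trans (Finset.set_ncard_biUnion_le F S)
  have hUpos : 0 < U.ncard := by
    rw [Nat.pos_iff_ne_zero]
    intro h0
    rw [h0] at hc
    simp at hc
    linarith
  have hFne : F.Nonempty := by
    rw [Finset.nonempty_iff_ne_empty]
    rintro rfl
    simp at h1
    omega
  have h2 : (U.ncard : ℝ) < F.card * (sqrt N / Er N ^ 2) := by
    calc (U.ncard : ℝ) ≤ ∑ i ∈ F, ((S i).ncard : ℝ) := by exact_mod_cast h1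
      _ < ∑ _i ∈ F, (sqrt N / Er N ^ 2) := Finset.sum_lt_sum_of_nonempty hFne hcon
      _ = F.card * (sqrt N / Er N ^ 2) := by rw [Finset.sum_const, nsmul_eq_mul]
  have h3 : (F.card : ℝ) * (sqrt N / Er N ^ 2) ≤ Er N * (sqrt N / Er N ^ 2) :=
    mul_le_mul_of_nonneg_right hF (by positivity)
  have h4 : Er N * (Er N * (sqrt N / Er N ^ 2)) = sqrt N := by field_simp
  have h5 : Er N * (U.ncard : ℝ) < Er N * (Er N * (sqrt N / Er N ^ 2)) :=
    mul_lt_mul_of_pos_left (h2.trans_le h3) hE0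
  linarith

/-- **Coverings by square progressions.** -/
theorem squares : ∀ᶠ N : ℕ in atTop, ∀ (A : Set ℕ) (F : Finset (ℝ × ℝ)), (F.card : ℝ) ≤ Er N →
    sqrt N ≤ Er N * ({a : ℕ | a ∈ A ∧ a ≤ N ∧ ∃ p ∈ F, ∃ m : ℕ, (m : ℝ) ≤ sqrt N * Er N ∧
      |(a : ℝ) - (p.1 * m ^ 2 + p.2)| ≤ Er N}.ncard : ℝ) →
    ∃ s : ℕ, s ≤ 2 * N ∧ Er N ^ 2 ≤ rep A s := by
  filter_upwards [quad, eventually_ge_atTop 1] with N hquad hN A F hF hc
  have hs0 : 0 < sqrt (N : ℝ) := sqrt_pos.mpr (by exact_mod_cast hN)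
  obtain ⟨p, hp, hpc⟩ := union_pigeon N hN F (fun p => {a : ℕ | a ∈ A ∧ a ≤ N ∧ ∃ m : ℕ,
    (m : ℝ) ≤ sqrt N * Er N ∧ |(a : ℝ) - (p.1 * m ^ 2 + p.2)| ≤ Er N}) _ (by
      rintro a ⟨h1, h2, p, hp, m, hm⟩
      exact ⟨p, hp, h1, h2, m, hm⟩) (fun p a ha => ha.2.1) hF hc
  have hph := ph_nonneg N
  have hE2 : Er N ^ 2 = exp (1 / 100 * ph N) := by
    rw [Er_pow]
    congr 1
    push_cast
    ring
  rw [hE2]
  refine hquad A p.1 p.2 ?_
  have hsub : {a : ℕ | a ∈ A ∧ a ≤ N ∧ ∃ m : ℕ,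
      (m : ℝ) ≤ sqrt N * Er N ∧ |(a : ℝ) - (p.1 * m ^ 2 + p.2)| ≤ Er N} ⊆
      {a : ℕ | a ∈ A ∧ a ≤ N ∧ ∃ m : ℕ, (m : ℝ) ≤ sqrt N * exp (1 / 40 * ph N) ∧
        |(a : ℝ) - (p.1 * m ^ 2 + p.2)| ≤ exp (1 / 100 * ph N)} := by
    rintro a ⟨h1, h2, m, hm1, hm2⟩
    refine ⟨h1, h2, m, hm1.trans ?_, hm2.trans ?_⟩
    · refine mul_le_mul_of_nonneg_left (exp_le_exp.mpr ?_) hs0.le
      linarith
    · exact exp_le_exp.mpr (by linarith)
  have hfin2 : {a : ℕ | a ∈ A ∧ a ≤ N ∧ ∃ m : ℕ, (m : ℝ) ≤ sqrt N * exp (1 / 40 * ph N) ∧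
        |(a : ℝ) - (p.1 * m ^ 2 + p.2)| ≤ exp (1 / 100 * ph N)}.Finite := by
    refine (Set.finite_Iic N).subset ?_
    rintro a ⟨_, h, _⟩
    exact h
  have h1 := Set.ncard_le_ncard hsub hfin2
  have h2 : sqrt N * exp (-(1 / 40 * ph N)) ≤ sqrt N / Er N ^ 2 := by
    rw [div_eq_mul_inv]
    refine mul_le_mul_of_nonneg_left ?_ hs0.le
    rw [hE2, ← exp_neg]
    exact exp_le_exp.mpr (by linarith)
  calc sqrt N * exp (-(1 / 40 * ph N)) ≤ sqrt N / Er N ^ 2 := h2
    _ ≤ _ := hpc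
    _ ≤ _ := by exact_mod_cast h1

/-- **Coverings by polynomial progressions.** -/
theorem polys (D : ℕ) : ∀ᶠ N : ℕ in atTop, ∀ (A : Set ℕ) (F : Finset (ℝ[X] × ℕ)),
    (F.card : ℝ) ≤ Er N →
    (∀ p ∈ F, p.1.natDegree ≤ D ∧ (p.2 : ℝ) ≤ sqrt N * Er N ∧
      ∀ t < p.2, (∃ z : ℤ, p.1.eval (t : ℝ) = z) ∧ |p.1.eval (t : ℝ)| ≤ 2 * N) →
    sqrt N ≤ Er N * ({a : ℕ | a ∈ A ∧ a ≤ N ∧ ∃ p ∈ F, ∃ t : ℕ, t < p.2 ∧
      |(a : ℝ) - p.1.eval (t : ℝ)| ≤ Er N}.ncard : ℝ) →
    ∃ s : ℕ, s ≤ 2 * N ∧ Er N ^ 2 ≤ rep A s := by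
  filter_upwards [piece D, eventually_ge_atTop 1] with N hpiece hN A F hF hprop hc
  obtain ⟨p, hp, hpc⟩ := union_pigeon N hN F (fun p => {a : ℕ | a ∈ A ∧ a ≤ N ∧ ∃ t : ℕ, t < p.2 ∧
      |(a : ℝ) - p.1.eval (t : ℝ)| ≤ Er N}) _ (by
      rintro a ⟨h1, h2, p, hp, t, ht⟩
      exact ⟨p, hp, h1, h2, t, ht⟩) (fun p a ha => ha.2.1) hF hc
  obtain ⟨h1, h2, h3⟩ := hprop p hp
  exact hpiece A p.1 p.2 h1 (fun t ht => (h3 t ht).1) (fun t ht => (h3 t ht).2) h2 hpc

/-- From `N` to `s`. -/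
lemma fin (A : Set ℕ) (h : ∃ᶠ N : ℕ in atTop, ∃ s : ℕ, s ≤ 2 * N ∧
    exp (3 / 400 * ph N) ≤ rep A s) : ∃ᶠ s : ℕ in atTop, Er s ≤ rep A s := by
  rw [frequently_atTop]
  intro M
  have hlogX : Tendsto (fun X : ℕ => log (X : ℝ)) atTop atTop :=
    tendsto_log_atTop.comp tendsto_natCast_atTop_atTop
  have h1 : Tendsto (fun N : ℕ => exp (3 / 400 * ph (N : ℝ))) atTop atTop :=
    tendsto_exp_atTop.comp (ph_tendsto.const_mul_atTop (by norm_num))
  obtain ⟨N, ⟨s, hs, hs'⟩, hN1, hN2, hN3⟩ := (h.and_eventually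
    ((h1.eventually (eventually_ge_atTop ((M : ℝ) + 17))).and
      ((hlogX.eventually (eventually_ge_atTop (3 : ℝ))).and (eventually_ge_atTop 2)))).exists
  have h3 : (rep A s : ℝ) ≤ s + 1 := by exact_mod_cast rep_le A s
  have h4 : M + 16 ≤ s := by
    have : ((M + 16 : ℕ) : ℝ) ≤ s := by push_cast; linarith
    exact_mod_cast this
  refine ⟨s, by omega, le_trans (exp_le_exp.mpr ?_) hs'⟩
  have hs16 : (16 : ℝ) ≤ s := by
    have : 16 ≤ s := by omega
    exact_mod_cast this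
  have h5 := psi_le (s := (s : ℝ)) (L := log (N : ℝ)) (K := 2) (by norm_num) hN2 hs16 (by
    rw [← log_rpow (by positivity)]
    refine log_le_log (by linarith) ?_
    have h6 : (s : ℝ) ≤ 2 * N := by exact_mod_cast hs
    have h7 : (2 : ℝ) ≤ N := by exact_mod_cast hN3
    rw [show (2 : ℝ) = ((2 : ℕ) : ℝ) by norm_num, rpow_natCast]
    nlinarith)
  have h6 : ph s ≤ 3 / 2 * ph N := by
    unfold ph
    refine (sqrt_le_sqrt h5).trans ?_
    rw [sqrt_mul (by norm_num)]
    refine mul_le_mul_of_nonneg_right ?_ (sqrt_nonneg _)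
    rw [sqrt_le_left (by norm_num)]
    norm_num
  linarith

lemma Er_le_rep (A : Set ℕ) (h : ∃ᶠ N : ℕ in atTop, ∃ s : ℕ, s ≤ 2 * N ∧
    Er N ^ 2 ≤ rep A s) : ∃ᶠ s : ℕ in atTop, Er s ≤ rep A s := by
  refine fin A (h.mono ?_)
  rintro N ⟨s, hs, hs'⟩
  refine ⟨s, hs, le_trans ?_ hs'⟩
  rw [Er_pow]
  refine exp_le_exp.mpr ?_
  have := ph_nonneg N
  push_cast
  linarith

lemma Er_mono {n N : ℕ} (h16 : 16 ≤ n) (h3 : 3 ≤ log (N : ℝ)) (h : n ≤ N) : Er n ≤ Er N := by
  unfold Er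
  refine exp_le_exp.mpr (mul_le_mul_of_nonneg_left ?_ (by norm_num))
  unfold ph
  refine sqrt_le_sqrt ?_
  have hn : (16 : ℝ) ≤ n := by exact_mod_cast h16
  have h5 := psi_le (s := (n : ℝ)) (L := log (N : ℝ)) (K := 1) le_rfl h3 hn (by
    rw [one_mul]
    exact log_le_log (by linarith) (by exact_mod_cast h))
  rwa [one_mul] at h5

/-- The first `n` terms of `a` are, up to an error `G`, given by at most `p` polynomials of degree
at most `D` with integer values, each of them on an interval of indices. -/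
def Spline (a : ℕ → ℕ) (D n : ℕ) (p G : ℝ) : Prop :=
  ∃ (q : ℕ) (c : ℕ → ℕ) (P : ℕ → ℝ[X]), (q : ℝ) ≤ p ∧ Monotone c ∧ c 0 = 0 ∧ c q = n ∧
    ∀ i < q, (P i).natDegree ≤ D ∧ ∀ k, c i ≤ k → k < c (i + 1) →
      (∃ z : ℤ, (P i).eval (k : ℝ) = z) ∧ |(a k : ℝ) - (P i).eval (k : ℝ)| ≤ G

lemma find_piece {c : ℕ → ℕ} {q k : ℕ} (h0 : c 0 = 0) (hk : k < c q) :
    ∃ i < q, c i ≤ k ∧ k < c (i + 1) := by
  induction q with
  | zero => omega
  | succ q ih =>
    by_cases h : k < c q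
    · obtain ⟨i, hi, h1⟩ := ih h
      exact ⟨i, by omega, h1⟩
    · exact ⟨q, by omega, by omega, hk⟩

open Classical in
/-- **Integral splines with few pieces.** -/
theorem spline (a : ℕ → ℕ) (ha : StrictMono a) (D : ℕ)
    (h : ∃ᶠ n : ℕ in atTop, (a n : ℝ) ≤ n ^ 2 * Er n ∧ Spline a D n (Er n) (Er n)) :
    ∃ᶠ s : ℕ in atTop, Er s ≤ rep (Set.range a) s := by
  apply fin
  have hlogX : Tendsto (fun X : ℕ => log (X : ℝ)) atTop atTop :=
    tendsto_log_atTop.comp tendsto_natCast_atTop_atTop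
  have hat : Tendsto a atTop atTop := ha.tendsto_atTop
  -- transfer to `N = a n`
  have hev : ∀ᶠ n : ℕ in atTop, ((a n : ℝ) ≤ n ^ 2 * Er n ∧ Spline a D n (Er n) (Er n)) →
      ∃ s : ℕ, s ≤ 2 * a n ∧ exp (3 / 400 * ph (a n)) ≤ rep (Set.range a) s := by
    have hEE : ∀ᶠ N : ℕ in atTop, 3 * exp (3 / 400 * ph (N : ℝ)) ≤ Er N ^ 2 := by
      have h1 : Tendsto (fun N : ℕ => exp (1 / 400 * ph (N : ℝ))) atTop atTop :=
        tendsto_exp_atTop.comp (ph_tendsto.const_mul_atTop (by norm_num))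
      filter_upwards [h1.eventually (eventually_ge_atTop (3 : ℝ))] with N hN
      calc 3 * exp (3 / 400 * ph (N : ℝ)) ≤ exp (1 / 400 * ph (N : ℝ)) * exp (3 / 400 * ph N) :=
            mul_le_mul_of_nonneg_right hN (exp_pos _).le
        _ = Er N ^ 2 := by
          rw [Er_pow, ← exp_add]
          congr 1
          push_cast
          ring
    filter_upwards [hat.eventually (polys D), hat.eventually hEE,
      hat.eventually (big 1 1 (by norm_num)),
      (hlogX.comp hat).eventually (eventually_ge_atTop (3 : ℝ)),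
      eventually_ge_atTop 16] with n hpolys hEE hbig hlog hn16
    rintro ⟨hgrow, q, c, P, hq, hmono, hc0, hcq, hP⟩
    simp only [Function.comp] at hlog
    set N : ℕ := a n with hN
    have hnN : n ≤ N := ha.id_le n
    have hN16 : 16 ≤ N := by omega
    have hNr : (16 : ℝ) ≤ N := by exact_mod_cast hN16
    have hs0 : 0 < sqrt (N : ℝ) := sqrt_pos.mpr (by linarith)
    have hss : sqrt (N : ℝ) * sqrt N = N := mul_self_sqrt (by linarith)
    have hE1 := Er_one N
    have hE0 : 0 < Er N := by linarith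
    have hEn := Er_mono hn16 hlog hnN
    rw [one_mul, pow_one] at hbig
    have hsN : sqrt (N : ℝ) ≤ N := by
      rw [sqrt_le_left (by linarith)]
      nlinarith
    have hn0 : (16 : ℝ) ≤ n := by exact_mod_cast hn16
    by_cases htriv : (n : ℝ) ≤ sqrt N * Er N
    · -- main case
      set F : Finset (ℝ[X] × ℕ) :=
        (range q).image (fun i => ((P i).comp (X + C ((c i : ℕ) : ℝ)), c (i + 1) - c i)) with hF
      obtain ⟨s, hs1, hs2⟩ := hpolys (Set.range a) F (by
          have h1 : (F.card : ℝ) ≤ q := by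
            have := Finset.card_image_le (s := range q)
              (f := fun i => ((P i).comp (X + C ((c i : ℕ) : ℝ)), c (i + 1) - c i))
            rw [Finset.card_range] at this
            exact_mod_cast this
          linarith) (by
          intro p hp
          rw [hF, Finset.mem_image] at hp
          obtain ⟨i, hi, rfl⟩ := hp
          rw [Finset.mem_range] at hi
          obtain ⟨hP1, hP2⟩ := hP i hi
          have hcle : c (i + 1) ≤ n := by rw [← hcq]; exact hmono hi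
          refine ⟨?_, ?_, ?_⟩
          · simp only
            rw [natDegree_comp, natDegree_X_add_C, mul_one]
            exact hP1
          · simp only
            have : ((c (i + 1) - c i : ℕ) : ℝ) ≤ n := by
              exact_mod_cast (by omega : c (i + 1) - c i ≤ n)
            linarith
          · intro t ht
            simp only at ht ⊢
            have h1 := hP2 (t + c i) (by omega) (by omega)
            have h2 : ((P i).comp (X + C ((c i : ℕ) : ℝ))).eval (t : ℝ) =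
                (P i).eval ((t + c i : ℕ) : ℝ) := by
              rw [eval_comp]
              simp
            rw [h2]
            refine ⟨h1.1, ?_⟩
            have h3 := abs_le.mp h1.2
            have h4 : (a (t + c i) : ℝ) ≤ N := by
              have : a (t + c i) ≤ N := by
                rw [hN]
                exact ha.monotone (by omega)
              exact_mod_cast this
            have h5 : (0 : ℝ) ≤ a (t + c i) := Nat.cast_nonneg _
            rw [abs_le]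
            constructor <;> linarith [h3.1, h3.2]) (by
          have hsub : (a '' (Set.Iio n)) ⊆ {x : ℕ | x ∈ Set.range a ∧ x ≤ N ∧ ∃ p ∈ F, ∃ t : ℕ,
              t < p.2 ∧ |(x : ℝ) - p.1.eval (t : ℝ)| ≤ Er N} := by
            rintro _ ⟨k, hk, rfl⟩
            rw [Set.mem_Iio] at hk
            obtain ⟨i, hi, h1, h2⟩ := find_piece hc0 (by rw [hcq]; exact hk)
            obtain ⟨_, hP2⟩ := hP i hi
            refine ⟨⟨k, rfl⟩, ?_, ((P i).comp (X + C ((c i : ℕ) : ℝ)), c (i + 1) - c i), ?_,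
              k - c i, ?_, ?_⟩
            · rw [hN]
              exact ha.monotone hk.le
            · rw [hF, Finset.mem_image]
              exact ⟨i, Finset.mem_range.mpr hi, rfl⟩
            · simp only
              omega
            · simp only
              have h3 : ((P i).comp (X + C ((c i : ℕ) : ℝ))).eval ((k - c i : ℕ) : ℝ) =
                  (P i).eval (k : ℝ) := by
                rw [eval_comp]
                simp [Nat.cast_sub h1]
              rw [h3]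
              exact (hP2 k h1 h2).2.trans hEn
          have hfin : {x : ℕ | x ∈ Set.range a ∧ x ≤ N ∧ ∃ p ∈ F, ∃ t : ℕ,
              t < p.2 ∧ |(x : ℝ) - p.1.eval (t : ℝ)| ≤ Er N}.Finite := by
            refine (Set.finite_Iic N).subset ?_
            rintro x ⟨_, hx, _⟩
            exact hx
          have h1 := Set.ncard_le_ncard hsub hfin
          rw [Set.ncard_image_of_injective _ ha.injective, Set.ncard_eq_toFinset_card',
            Set.toFinset_Iio, Nat.card_Iio] at h1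
          have h2 : (n : ℝ) ≤ ({x : ℕ | x ∈ Set.range a ∧ x ≤ N ∧ ∃ p ∈ F, ∃ t : ℕ,
              t < p.2 ∧ |(x : ℝ) - p.1.eval (t : ℝ)| ≤ Er N}.ncard : ℝ) := by exact_mod_cast h1
          have h3 : sqrt (N : ℝ) ≤ Er N * n := by
            rw [sqrt_le_left (by positivity)]
            calc (N : ℝ) ≤ n ^ 2 * Er n := hgrow
              _ ≤ n ^ 2 * (Er N * Er N) := by
                  refine mul_le_mul_of_nonneg_left ?_ (by positivity)
                  nlinarith
              _ = (Er N * n) ^ 2 := by ring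
          calc sqrt (N : ℝ) ≤ Er N * n := h3
            _ ≤ _ := mul_le_mul_of_nonneg_left h2 hE0.le)
      refine ⟨s, hs1, le_trans ?_ hs2⟩
      have := exp_pos (3 / 400 * ph (N : ℝ))
      linarith
    · -- very dense
      push Not at htriv
      obtain ⟨s, hs1, hs2⟩ := pigeon (Set.range a) N
        (((range n).image a) ×ˢ ((range n).image a)) (by
          intro z hz
          rw [Finset.mem_product, Finset.mem_image, Finset.mem_image] at hz
          obtain ⟨⟨i, hi, h1⟩, ⟨j, hj, h2⟩⟩ := hz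
          rw [Finset.mem_range] at hi hj
          refine ⟨⟨i, h1⟩, ⟨j, h2⟩, ?_, ?_⟩
          · rw [← h1, hN]; exact ha.monotone hi.le
          · rw [← h2, hN]; exact ha.monotone hj.le)
        (range (2 * N + 1)) (by
          intro z hz
          rw [Finset.mem_product, Finset.mem_image, Finset.mem_image] at hz
          obtain ⟨⟨i, hi, h1⟩, ⟨j, hj, h2⟩⟩ := hz
          rw [Finset.mem_range] at hi hj
          have h3 : z.1 ≤ N := by rw [← h1, hN]; exact ha.monotone hi.le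
          have h4 : z.2 ≤ N := by rw [← h2, hN]; exact ha.monotone hj.le
          rw [Finset.mem_range]
          omega)
        ((sqrt N * Er N) ^ 2) (3 * N) (by positivity) (by linarith)
        (by
          rw [Finset.card_product, Finset.card_image_of_injective _ ha.injective,
            Finset.card_range]
          push_cast
          nlinarith [mul_pos hs0 hE0])
        (by
          rw [Finset.card_range]
          push_cast
          linarith)
      refine ⟨s, hs1, le_trans ?_ hs2⟩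
      rw [le_div_iff₀ (by linarith), mul_pow, sq (sqrt (N : ℝ)), hss]
      nlinarith
  -- conclusion
  rw [frequently_atTop] at h ⊢
  intro M
  obtain ⟨M', hM'⟩ := eventually_atTop.mp hev
  obtain ⟨n, hn, hn'⟩ := h (max M M')
  exact ⟨a n, (le_trans (le_max_left _ _) hn).trans (ha.id_le n),
    hM' n ((le_max_right _ _).trans hn) hn'⟩

open Classical in
/-- The growth of an asymptotic basis. -/
lemma basis_growth (a : ℕ → ℕ) (ha : StrictMono a)
    (h : ∀ᶠ s : ℕ in atTop, 1 ≤ rep (Set.range a) s) :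
    ∀ᶠ n : ℕ in atTop, (a n : ℝ) ≤ n ^ 2 * Er n := by
  obtain ⟨s0, hs0⟩ := eventually_atTop.mp h
  filter_upwards [Er_tendsto.eventually (eventually_ge_atTop (2 : ℝ)),
    eventually_ge_atTop (s0 + 1)] with n hE hn
  have h1 : a n ≤ n ^ 2 + s0 := by
    by_contra hcon
    push Not at hcon
    have h2 : Finset.Ico s0 (a n) ⊆
        ((range n) ×ˢ (range n)).image (fun z : ℕ × ℕ => a z.1 + a z.2) := by
      intro s hs
      rw [Finset.mem_Ico] at hs
      have h3 := hs0 s hs.1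
      unfold rep at h3
      obtain ⟨z, hz1, hz2, hz3⟩ := Set.nonempty_of_ncard_ne_zero
        (s := {p : ℕ × ℕ | p.1 ∈ Set.range a ∧ p.2 ∈ Set.range a ∧ p.1 + p.2 = s}) (by omega)
      obtain ⟨i, hi⟩ := hz1
      obtain ⟨j, hj⟩ := hz2
      rw [Finset.mem_image]
      refine ⟨(i, j), ?_, by simp only; rw [hi, hj]; exact hz3⟩
      rw [Finset.mem_product, Finset.mem_range, Finset.mem_range]
      constructor
      · exact ha.lt_iff_lt.mp (by simp only; omega)
      · exact ha.lt_iff_lt.mp (by simp only; omega)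
    have h3 := (Finset.card_le_card h2).trans Finset.card_image_le
    rw [Nat.card_Ico, Finset.card_product, Finset.card_range, ← sq] at h3
    omega
  have h2 : (s0 : ℝ) + 1 ≤ n := by exact_mod_cast hn
  have h3 : (a n : ℝ) ≤ n ^ 2 + s0 := by exact_mod_cast h1
  nlinarith

end Pool.Agent.N715.QC
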