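import Mathlib
import Pool.Agent.N715.QC.Main

/-!
# Sequences whose `d`-th differences vanish with few exceptions are splines with few pieces
-/

open Finset Filter Topology Real Polynomial

namespace Pool.Agent.N715.QC

/-- The `d`-th difference of the sequence `a` at `k`. -/
def diff (d : ℕ) (a : ℕ → ℕ) (k : ℕ) : ℤ :=
  ∑ i ∈ range (d + 1), (-1) ^ (d - i) * (d.choose i : ℤ) * (a (k + i) : ℤ)

lemma poly_of_diff (a : ℕ → ℕ) {d u v : ℕ} (hd : 1 ≤ d)
    (h : ∀ k, u ≤ k → k + 1 < v → diff d a k = 0) :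
    ∃ P : ℝ[X], P.natDegree ≤ d ∧ ∀ k, u ≤ k → k < v → P.eval (k : ℝ) = a k := by
  set x : ℕ → ℝ := fun i => ((u + i : ℕ) : ℝ) with hx
  have hinj : Set.InjOn x (range d) := by
    intro i _ j _ hij
    simp only [hx] at hij
    have : u + i = u + j := by exact_mod_cast hij
    omega
  set P : ℝ[X] := Lagrange.interpolate (range d) x (fun i => ((a (u + i) : ℕ) : ℝ)) with hP
  have hdeg : P.natDegree < d := by
    by_cases h0 : P = 0
    · rw [h0]
      simp
      omega
    · rw [natDegree_lt_iff_degree_lt h0]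
      have := Lagrange.degree_interpolate_lt (r := fun i => ((a (u + i) : ℕ) : ℝ)) hinj
      rwa [Finset.card_range] at this
  refine ⟨P, hdeg.le, ?_⟩
  have key : ∀ j, u + j < v → P.eval ((u + j : ℕ) : ℝ) = a (u + j) := by
    intro j
    induction j using Nat.strong_induction_on with
    | _ j ih =>
      intro hj
      by_cases hjd : j < d
      · have h1 := Lagrange.eval_interpolate_at_node (r := fun i => ((a (u + i) : ℕ) : ℝ)) hinj
          (Finset.mem_range.mpr hjd)
        exact h1
      · push Not at hjd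
        obtain ⟨e, rfl⟩ : ∃ e, j = e + d := ⟨j - d, by omega⟩
        have h1 : diff d a (u + e) = 0 := h _ (by omega) (by omega)
        have h2 := congr_fun (Polynomial.fwdDiff_iter_eq_zero_of_degree_lt hdeg) ((u + e : ℕ) : ℝ)
        rw [fwdDiff_iter_eq_sum_shift] at h2
        simp only [zsmul_eq_mul, nsmul_eq_mul, mul_one, Pi.zero_apply] at h2
        unfold diff at h1
        have h3 : ∑ i ∈ range (d + 1), (((-1 : ℤ) ^ (d - i) * (d.choose i : ℤ) : ℤ) : ℝ) *
            ((a (u + e + i) : ℕ) : ℝ) = 0 := by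
          have := congrArg (fun z : ℤ => (z : ℝ)) h1
          push_cast at this ⊢
          exact this
        rw [Finset.sum_range_succ] at h2 h3
        have h4 : ∑ i ∈ range d, (((-1 : ℤ) ^ (d - i) * (d.choose i : ℤ) : ℤ) : ℝ) *
            P.eval (((u + e : ℕ) : ℝ) + i) = ∑ i ∈ range d,
            (((-1 : ℤ) ^ (d - i) * (d.choose i : ℤ) : ℤ) : ℝ) * ((a (u + e + i) : ℕ) : ℝ) := by
          refine Finset.sum_congr rfl fun i hi => ?_
          rw [Finset.mem_range] at hi
          have h5 := ih (e + i) (by omega) (by omega)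
          rw [← add_assoc] at h5
          rw [← h5]
          push_cast
          rfl
        rw [h4] at h2
        simp only [Nat.sub_self, pow_zero, Nat.choose_self, one_mul, Nat.cast_one,
          Int.cast_one] at h2 h3
        have h6 : P.eval (((u + e : ℕ) : ℝ) + d) = ((a (u + e + d) : ℕ) : ℝ) := by linarith
        rw [← add_assoc, ← h6]
        push_cast
        rfl
  intro k hk1 hk2
  obtain ⟨j, rfl⟩ : ∃ j, k = u + j := ⟨k - u, by omega⟩
  exact key j hk2

open Classical in
lemma spline_of_diff (a : ℕ → ℕ) {d : ℕ} (hd : 1 ≤ d) (n : ℕ) (p G : ℝ) (hG : 0 ≤ G)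
    (h : (((range n).filter (fun k => diff d a k ≠ 0)).card : ℝ) + 1 ≤ p) :
    Spline a d n p G := by
  set pr : ℕ → Prop := fun k => diff d a k ≠ 0 with hpr
  have hcount : Nat.count pr n = ((range n).filter (fun k => diff d a k ≠ 0)).card := by
    rw [Nat.count_eq_card_filter_range]
  have hex : ∀ i, ∃ k, i ≤ Nat.count pr k ∨ n ≤ k := fun i => ⟨n, Or.inr le_rfl⟩
  set c : ℕ → ℕ := fun i => Nat.find (hex i) with hc
  have hcn : ∀ i, c i ≤ n := fun i => Nat.find_min' (hex i) (Or.inr le_rfl)
  have hspec : ∀ i, i ≤ Nat.count pr (c i) ∨ n ≤ c i := fun i => Nat.find_spec (hex i)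
  have hmin : ∀ i k, k < c i → ¬ (i ≤ Nat.count pr k ∨ n ≤ k) := fun i k hk =>
    Nat.find_min (hex i) hk
  have hle : ∀ i k, (i ≤ Nat.count pr k ∨ n ≤ k) → c i ≤ k := fun i k hk =>
    Nat.find_min' (hex i) hk
  have hpoly : ∀ i, ∃ P : ℝ[X], P.natDegree ≤ d ∧ ∀ k, c i ≤ k → k < c (i + 1) →
      P.eval (k : ℝ) = a k := by
    intro i
    refine poly_of_diff a hd fun k hk1 hk2 => ?_
    have h1 : ∀ j, c i ≤ j → j < c (i + 1) → Nat.count pr j = i := by
      intro j hj1 hj2
      have h2 := hmin (i + 1) j hj2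
      push Not at h2
      rcases hspec i with h3 | h3
      · have h4 : Nat.count pr (c i) ≤ Nat.count pr j := Nat.count_monotone _ hj1
        omega
      · omega
    have h2 := h1 k hk1 (by omega)
    have h3 := h1 (k + 1) (by omega) hk2
    rw [Nat.count_succ, h2] at h3
    by_contra hcon
    have : pr k := hcon
    rw [if_pos this] at h3
    omega
  choose P hP1 hP2 using hpoly
  refine ⟨Nat.count pr n + 1, c, P, ?_, ?_, ?_, ?_, ?_⟩
  · push_cast
    rw [hcount]
    exact h
  · intro i j hij
    refine hle i (c j) ?_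
    rcases hspec j with h1 | h1
    · exact Or.inl (hij.trans h1)
    · exact Or.inr h1
  · have := hle 0 0 (Or.inl (Nat.zero_le _))
    omega
  · refine le_antisymm (hcn _) ?_
    rcases hspec (Nat.count pr n + 1) with h1 | h1
    · have h2 : Nat.count pr (c (Nat.count pr n + 1)) ≤ Nat.count pr n :=
        Nat.count_monotone _ (hcn _)
      omega
    · exact h1
  · intro i _
    refine ⟨hP1 i, fun k hk1 hk2 => ?_⟩
    rw [hP2 i k hk1 hk2]
    refine ⟨⟨(a k : ℤ), by push_cast; rfl⟩, ?_⟩
    simpa using hG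

end Pool.Agent.N715.QC
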