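import Mathlib
import Pool.Agent.N715.QC.Diff

/-!
# Coverings by few square progressions and polynomial progressions
-/

open Finset Filter Topology Real Polynomial

namespace Pool.Agent.N715.QC

open Pool.Agent.H397R2.NS

/-- **Coverings by few square progressions and polynomial progressions.** -/
theorem mixed (D : ℕ) : ∀ᶠ N : ℕ in atTop, ∀ (A : Set ℕ) (F : Finset (ℝ × ℝ))
    (H : Finset (ℝ[X] × ℕ)), (F.card : ℝ) + H.card ≤ Er N →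
    (∀ p ∈ H, p.1.natDegree ≤ D ∧ (p.2 : ℝ) ≤ sqrt N * Er N ∧
      ∀ t < p.2, (∃ z : ℤ, p.1.eval (t : ℝ) = z) ∧ |p.1.eval (t : ℝ)| ≤ 2 * N) →
    sqrt N ≤ Er N * ({a : ℕ | a ∈ A ∧ a ≤ N ∧
      ((∃ p ∈ F, ∃ m : ℕ, (m : ℝ) ≤ sqrt N * Er N ∧
        |(a : ℝ) - (p.1 * m ^ 2 + p.2)| ≤ Er N) ∨
      (∃ p ∈ H, ∃ t : ℕ, t < p.2 ∧ |(a : ℝ) - p.1.eval (t : ℝ)| ≤ Er N))}.ncard : ℝ) →
    ∃ s : ℕ, s ≤ 2 * N ∧ Er N ^ 2 ≤ rep A s := by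
  filter_upwards [quad, piece D, eventually_ge_atTop 1] with N hquad hpiece hN A F H hF hprop hc
  have hs0 : 0 < sqrt (N : ℝ) := sqrt_pos.mpr (by exact_mod_cast hN)
  set S : (ℝ × ℝ) ⊕ (ℝ[X] × ℕ) → Set ℕ := Sum.elim
    (fun p => {a : ℕ | a ∈ A ∧ a ≤ N ∧ ∃ m : ℕ,
      (m : ℝ) ≤ sqrt N * Er N ∧ |(a : ℝ) - (p.1 * m ^ 2 + p.2)| ≤ Er N})
    (fun p => {a : ℕ | a ∈ A ∧ a ≤ N ∧ ∃ t : ℕ, t < p.2 ∧
      |(a : ℝ) - p.1.eval (t : ℝ)| ≤ Er N}) with hS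
  obtain ⟨i, hi, hic⟩ := union_pigeon N hN (F.disjSum H) S _ (by
      rintro a ⟨h1, h2, ⟨p, hp, m, hm⟩ | ⟨p, hp, t, ht⟩⟩
      · exact ⟨Sum.inl p, Finset.inl_mem_disjSum.mpr hp, h1, h2, m, hm⟩
      · exact ⟨Sum.inr p, Finset.inr_mem_disjSum.mpr hp, h1, h2, t, ht⟩)
      (by
        rintro (p | p) a ha
        · exact ha.2.1
        · exact ha.2.1)
      (by
        rw [Finset.card_disjSum]
        push_cast
        exact hF) hc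
  rcases i with p | p
  · rw [hS, Sum.elim_inl] at hic
    have hph := ph_nonneg N
    have hE2 : Er N ^ 2 = exp (1 / 100 * ph N) := by
      rw [Er_pow]
      congr 1
      push_cast
      ring
    rw [hE2]
    refine hquad A p.1 p.2 ?_
    have hsub : {a : ℕ | a ∈ A ∧ a ≤ N ∧ ∃ m : ℕ,
        (m : ℝ) ≤ sqrt N * Er N ∧ |(a : ℝ) - (p.1 * m ^ 2 + p.2)| ≤ Er N} ⊆
        {a : ℕ | a ∈ A ∧ a ≤ N ∧ ∃ m : ℕ, (m : ℝ) ≤ sqrt N * exp (1 / 40 * ph N) ∧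
          |(a : ℝ) - (p.1 * m ^ 2 + p.2)| ≤ exp (1 / 100 * ph N)} := by
      rintro a ⟨h1, h2, m, hm1, hm2⟩
      refine ⟨h1, h2, m, hm1.trans ?_, hm2.trans ?_⟩
      · refine mul_le_mul_of_nonneg_left (exp_le_exp.mpr ?_) hs0.le
        linarith
      · exact exp_le_exp.mpr (by linarith)
    have hfin2 : {a : ℕ | a ∈ A ∧ a ≤ N ∧ ∃ m : ℕ, (m : ℝ) ≤ sqrt N * exp (1 / 40 * ph N) ∧
          |(a : ℝ) - (p.1 * m ^ 2 + p.2)| ≤ exp (1 / 100 * ph N)}.Finite := by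
      refine (Set.finite_Iic N).subset ?_
      rintro a ⟨_, h, _⟩
      exact h
    have h1 := Set.ncard_le_ncard hsub hfin2
    have h2 : sqrt N * exp (-(1 / 40 * ph N)) ≤ sqrt N / Er N ^ 2 := by
      rw [div_eq_mul_inv]
      refine mul_le_mul_of_nonneg_left ?_ hs0.le
      rw [hE2, ← exp_neg]
      exact exp_le_exp.mpr (by linarith)
    calc sqrt N * exp (-(1 / 40 * ph N)) ≤ sqrt N / Er N ^ 2 := h2
      _ ≤ _ := hic
      _ ≤ _ := by exact_mod_cast h1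
  · rw [hS, Sum.elim_inr] at hic
    obtain ⟨h1, h2, h3⟩ := hprop p (Finset.inr_mem_disjSum.mp hi)
    exact hpiece A p.1 p.2 h1 (fun t ht => (h3 t ht).1) (fun t ht => (h3 t ht).2) h2 hic

end Pool.Agent.N715.QC
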